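import Pool.Agent.H174.GP.StE
import Pool.Agent.H174.GP.StP

/-!
# Random signs hit a value and stay above (project GP of helper174)
-/

open MeasureTheory ProbabilityTheory Finset

namespace Pool.Agent.H245.GP174

open Pool.Agent.H174.GP

theorem lap_half (h : S_L3) : lap (Set.Ici 0) = 1 / 2 ∧ lap (Set.Iio 0) = 1 / 2 := by
  obtain ⟨h1, -, h3⟩ := h
  have e1 : lap (Set.Iio 0) = lap (Set.Ioi 0) := by
    have : lap (Set.Iio 0) = (Measure.map (fun x : ℝ => -x) lap) (Set.Iio 0) := by rw [h1]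
    rw [this, Measure.map_apply measurable_neg measurableSet_Iio]
    have h5 : (fun x : ℝ => -x) ⁻¹' Set.Iio 0 = Set.Ioi 0 := by
      ext x
      simp
    rw [h5]
  have e2 : lap (Set.Ici 0) = lap (Set.Ioi 0) := by
    apply le_antisymm
    · have hsub : Set.Ici (0 : ℝ) ⊆ Set.Ioi 0 ∪ {0} := by
        intro x hx
        rcases lt_or_eq_of_le (Set.mem_Ici.1 hx) with h | h
        · exact Or.inl h
        · exact Or.inr h.symm
      calc lap (Set.Ici 0) ≤ lap (Set.Ioi 0 ∪ {0}) := measure_mono hsub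
        _ ≤ lap (Set.Ioi 0) + lap {0} := measure_union_le _ _
        _ = lap (Set.Ioi 0) := by rw [h3 0, add_zero]
    · exact measure_mono Set.Ioi_subset_Ici_self
  have e3 : lap (Set.Iio 0) + lap (Set.Ici 0) = 1 := by
    rw [← measure_union _ measurableSet_Ici, Set.Iio_union_Ici]
    · exact measure_univ
    · rw [Set.disjoint_left]
      intro x hx hx'
      exact absurd (Set.mem_Iio.1 hx) (not_lt.2 (Set.mem_Ici.1 hx'))
  rw [e1, e2] at e3
  have e4 : lap (Set.Ioi 0) = 1 / 2 := by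
    rw [← two_mul] at e3
    rw [ENNReal.eq_div_iff (by norm_num) (by norm_num)]
    exact e3
  exact ⟨e2.trans e4, e1.trans e4⟩

/-- The number of sign vectors with the sum `k`. -/
theorem count_ge (n j : ℕ) (k : ℤ) (hj : 2 * (j : ℤ) = n + k)
    [DecidablePred fun ε : Fin n → Bool => ∑ i, (if ε i then (1 : ℤ) else -1) = k] :
    n.choose j ≤ ((Finset.univ : Finset (Fin n → Bool)).filter
      (fun ε : Fin n → Bool => ∑ i, (if ε i then (1 : ℤ) else -1) = k)).card := by
  classical
  have h0 : n.choose j = (Finset.powersetCard j (Finset.univ : Finset (Fin n))).card := by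
    rw [Finset.card_powersetCard, Finset.card_univ, Fintype.card_fin]
  rw [h0]
  apply Finset.card_le_card_of_injOn (fun S => fun i => decide (i ∈ S))
  · intro S hS
    have hS' : S.card = j := (Finset.mem_powersetCard.1 (Finset.mem_coe.1 hS)).2
    rw [Finset.mem_coe, Finset.mem_filter]
    refine ⟨Finset.mem_univ _, ?_⟩
    have h1 : ∀ i : Fin n, (if (decide (i ∈ S)) = true then (1 : ℤ) else -1)
        = 2 * (if i ∈ S then 1 else 0) - 1 := by
      intro i
      by_cases h : i ∈ S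
      · simp [h]
      · simp [h]
    rw [Finset.sum_congr rfl (fun i _ => h1 i), Finset.sum_sub_distrib, ← Finset.mul_sum,
      Finset.sum_ite_mem, Finset.univ_inter, Finset.sum_const, Finset.sum_const, hS',
      Finset.card_univ, Fintype.card_fin]
    simp only [nsmul_eq_mul, mul_one]
    linarith
  · intro S _ S' _ h
    ext i
    have h1 := congrFun h i
    simpa using h1

/-- A lower set in `Fin n`. -/
theorem lower_eq {n : ℕ} (e : Fin n ↪o ℕ) (l : ℕ) : ∃ l' : ℕ, ∀ i : Fin n, e i ≤ l ↔ (i : ℕ) < l' := by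
  classical
  have hex : ∃ j : ℕ, ∀ i : Fin n, e i ≤ l → (i : ℕ) < j := ⟨n, fun i _ => i.2⟩
  refine ⟨Nat.find hex, fun i => ⟨fun hi => Nat.find_spec hex i hi, fun hi => ?_⟩⟩
  by_contra hcon
  push Not at hcon
  have h1 : ∀ i' : Fin n, e i' ≤ l → (i' : ℕ) < (i : ℕ) := by
    intro i' hi'
    have h2 : e i' < e i := lt_of_le_of_lt hi' hcon
    exact e.lt_iff_lt.1 h2
  exact absurd (Nat.find_min' hex h1) (not_le.2 hi)

theorem gp_bits (h1 : S_reflect) (h2 : S_binlow) (h3 : S_L3) : Pool.Agent.H174.GP.S_bits := by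
  classical
  obtain ⟨c, hc, C, hC, c0, hc0, hb⟩ := h2
  refine ⟨c / 2, by positivity, C, hC, min c0 1, lt_min hc0 one_pos, ?_⟩
  intro I k a hI1 hIa hk hev
  set n := I.card with hn
  have hn0 : (0 : ℝ) < n := by exact_mod_cast hI1
  have hkn : |(k : ℝ)| ≤ n := by
    refine hk.trans ?_
    calc min c0 1 * (n : ℝ) ≤ 1 * n := by
          apply mul_le_mul_of_nonneg_right (min_le_right _ _) hn0.le
      _ = n := one_mul _
  have hkn' : |k| ≤ (n : ℤ) := by exact_mod_cast hkn
  have hk1 := (abs_le.1 hkn').1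
  have hk2 := (abs_le.1 hkn').2
  obtain ⟨r, hr⟩ := hev
  obtain ⟨j, rfl⟩ : ∃ j : ℕ, r = j := ⟨r.toNat, by rw [Int.toNat_of_nonneg (by omega)]⟩
  have hj : 2 * (j : ℤ) = n + k := by rw [hr]; ring
  have hjn : j ≤ n := by omega
  have hjr : 2 * (j : ℝ) - n = k := by
    have : (2 * (j : ℤ) : ℝ) = ((n : ℤ) : ℝ) + (k : ℝ) := by exact_mod_cast hj
    push_cast at this
    linarith
  have hb' := hb n j hI1 (by
    rw [hjr]
    refine hk.trans ?_
    exact mul_le_mul_of_nonneg_right (min_le_left _ _) hn0.le)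
  rw [hjr] at hb'
  have hbn : bn n (1 / 2) j = (n.choose j : ℝ) * (1 / 2) ^ n := by
    unfold bn
    have : (1 : ℝ) - 1 / 2 = 1 / 2 := by norm_num
    rw [this, mul_assoc, ← pow_add, Nat.add_sub_cancel' hjn]
  rw [hbn] at hb'
  have hrefl := h1 n a k hkn' ⟨(j : ℤ), hr⟩ hIa
  have hcount := count_ge n j k hj
  set good := (Finset.univ : Finset (Fin n → Bool)).filter
      (fun ε : Fin n → Bool => ∑ i, (if ε i then (1 : ℤ) else -1) = k ∧
      ∀ l : ℕ, min 0 k - a ≤ ∑ i ∈ Finset.univ.filter (fun i : Fin n => (i : ℕ) < l),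
        (if ε i then (1 : ℤ) else -1)) with hgood
  have hgc : (n.choose j : ℝ) ≤ 2 * (good.card : ℝ) := by
    refine le_trans ?_ hrefl
    exact_mod_cast hcount
  -- the cylinders
  let e : Fin n ↪o ℕ := I.orderEmbOfFin rfl
  have heI : ∀ i, e i ∈ I := fun i => Finset.orderEmbOfFin_mem I rfl i
  have hmap : (Finset.univ : Finset (Fin n)).map e.toEmbedding = I :=
    Finset.map_orderEmbOfFin_univ I rfl
  let t : (Fin n → Bool) → ℕ → Set ℝ := fun ε m =>
    if ∃ i, e i = m ∧ ε i = true then Set.Ici 0 else Set.Iio 0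
  have ht1 : ∀ ε i, ε i = true → t ε (e i) = Set.Ici 0 := fun ε i h => if_pos ⟨i, rfl, h⟩
  have ht2 : ∀ ε i, ε i = false → t ε (e i) = Set.Iio 0 := by
    intro ε i h
    apply if_neg
    rintro ⟨i', h1', h2'⟩
    have : i' = i := e.injective h1'
    rw [this, h] at h2'
    exact Bool.false_ne_true h2'
  let cyl : (Fin n → Bool) → Set (ℕ → ℝ) := fun ε => Set.pi (I : Set ℕ) (t ε)
  have hmt : ∀ ε m, MeasurableSet (t ε m) := by
    intro ε m
    by_cases h : ∃ i, e i = m ∧ ε i = true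
    · have : t ε m = Set.Ici 0 := if_pos h
      rw [this]; exact measurableSet_Ici
    · have : t ε m = Set.Iio 0 := if_neg h
      rw [this]; exact measurableSet_Iio
  have hpt : ∀ ε m, lap (t ε m) = 1 / 2 := by
    intro ε m
    by_cases h : ∃ i, e i = m ∧ ε i = true
    · have : t ε m = Set.Ici 0 := if_pos h
      rw [this]; exact (lap_half h3).1
    · have : t ε m = Set.Iio 0 := if_neg h
      rw [this]; exact (lap_half h3).2
  have hmc : ∀ ε, MeasurableSet (cyl ε) := fun ε =>
    MeasurableSet.pi I.countable_toSet (fun m _ => hmt ε m)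
  have hpc : ∀ ε, PP.real (cyl ε) = (1 / 2) ^ n := by
    intro ε
    have h5 : PP (cyl ε) = ∏ m ∈ I, lap (t ε m) := by
      unfold PP
      exact Measure.infinitePi_pi _ (fun m _ => hmt ε m)
    rw [Measure.real, h5, Finset.prod_congr rfl (fun m _ => hpt ε m), Finset.prod_const, ← hn]
    simp
  have hsgn : ∀ ε ω, ω ∈ cyl ε → ∀ i, sg (ω (e i)) = if ε i then (1 : ℤ) else -1 := by
    intro ε ω hω i
    have h5 := hω (e i) (Finset.mem_coe.2 (heI i))
    cases hε : ε i with
    | true =>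
      rw [ht1 ε i hε] at h5
      unfold sg
      rw [if_pos (Set.mem_Ici.1 h5)]
      rfl
    | false =>
      rw [ht2 ε i hε] at h5
      unfold sg
      rw [if_neg (not_le.2 (Set.mem_Iio.1 h5))]
      rfl
  have hdisj : Set.PairwiseDisjoint (good : Set (Fin n → Bool)) cyl := by
    intro ε _ ε' _ hne
    rw [Function.onFun, Set.disjoint_left]
    intro ω hω hω'
    apply hne
    ext i
    have h5 := hsgn ε ω hω i
    have h6 := hsgn ε' ω hω' i
    rw [h5] at h6
    cases h7 : ε i <;> cases h8 : ε' i <;> simp_all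
  have hsub : (⋃ ε ∈ good, cyl ε) ⊆ {ω | ∑ i ∈ I, sg (ω i) = k ∧
      ∀ l : ℕ, min 0 k - a ≤ ∑ i ∈ I.filter (fun i => i ≤ l), sg (ω i)} := by
    intro ω hω
    rw [Set.mem_iUnion₂] at hω
    obtain ⟨ε, hε, hω⟩ := hω
    rw [hgood, Finset.mem_filter] at hε
    obtain ⟨-, hε1, hε2⟩ := hε
    have hs := hsgn ε ω hω
    refine ⟨?_, ?_⟩
    · rw [← hmap, Finset.sum_map, ← hε1]
      exact Finset.sum_congr rfl (fun i _ => hs i)
    · intro l
      obtain ⟨l', hl'⟩ := lower_eq e l
      have h5 : ∑ i ∈ I.filter (fun i => i ≤ l), sg (ω i)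
          = ∑ i ∈ Finset.univ.filter (fun i : Fin n => (i : ℕ) < l'),
            (if ε i then (1 : ℤ) else -1) := by
        rw [← hmap, Finset.filter_map, Finset.sum_map]
        have h6 : (Finset.univ : Finset (Fin n)).filter ((fun i => i ≤ l) ∘ e.toEmbedding)
            = Finset.univ.filter (fun i : Fin n => (i : ℕ) < l') := by
          apply Finset.filter_congr
          intro i _
          exact hl' i
        rw [h6]
        exact Finset.sum_congr rfl (fun i _ => hs i)
      rw [h5]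
      exact hε2 l'
  have hfin : (good.card : ℝ) * (1 / 2) ^ n ≤ PP.real {ω | ∑ i ∈ I, sg (ω i) = k ∧
      ∀ l : ℕ, min 0 k - a ≤ ∑ i ∈ I.filter (fun i => i ≤ l), sg (ω i)} := by
    calc (good.card : ℝ) * (1 / 2) ^ n = ∑ ε ∈ good, PP.real (cyl ε) := by
          rw [Finset.sum_congr rfl (fun ε _ => hpc ε), Finset.sum_const, nsmul_eq_mul]
      _ = PP.real (⋃ ε ∈ good, cyl ε) :=
          (measureReal_biUnion_finset hdisj (fun ε _ => hmc ε)).symm
      _ ≤ _ := measureReal_mono hsub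
  refine le_trans ?_ hfin
  have hp2 : (0 : ℝ) < (1 / 2) ^ n := by positivity
  calc c / 2 / Real.sqrt n * Real.exp (-(C * (k : ℝ) ^ 2 / n))
      = (c / Real.sqrt n * Real.exp (-(C * (k : ℝ) ^ 2 / n))) / 2 := by ring
    _ ≤ ((n.choose j : ℝ) * (1 / 2) ^ n) / 2 := by linarith
    _ ≤ (2 * (good.card : ℝ) * (1 / 2) ^ n) / 2 := by
        have := mul_le_mul_of_nonneg_right hgc hp2.le
        linarith
    _ = (good.card : ℝ) * (1 / 2) ^ n := by ring

end Pool.Agent.H245.GP174
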